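import Pool.Agent.Q175.LG.Wn

set_option autoImplicit false

/-! The Bass trace conjecture, over every commutative domain and for every group, for all modules with
a presentation controlled by an integral matrix whose norm is in a window above `3 / √2`, and its
reduction to modules whose presentations are exponentially close to `3 / √2` in terms of their size. -/

namespace Pool.Agent.Results.MP_7903c7_al.BassWindow

open TH57.Thr TH6.PF Matrix

/-- The Bass trace conjecture for the idempotent matrix `A`: the Hattori–Stallings rank vanishes at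
all elements whose order is not invertible in `R` (`orderOf g = 0` if the order is infinite). -/
def Bass {R : Type} [CommRing R] {G : Type} [Group G] {k : ℕ}
    (A : Matrix (Fin k) (Fin k) (MonoidAlgebra R G)) : Prop :=
  ∀ g : G, ¬ IsUnit ((orderOf g : ℕ) : R) →
    ∑ i : Fin k, ∑ᶠ (h : G) (_ : IsConj h g), (A i i).coeff h = 0

/-- The module `(RG)^k · A` is isomorphic to `(RG)^n` modulo the rows of an `m × n` matrix `M` which is
supported in the support of the integral matrix `N`. -/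
def PresentedBy {R : Type} [CommRing R] {G : Type} [Group G] {k m n : ℕ}
    (A : Matrix (Fin k) (Fin k) (MonoidAlgebra R G))
    (N : Matrix (Fin m) (Fin n) (MonoidAlgebra ℤ G)) : Prop :=
  ∃ M : Matrix (Fin m) (Fin n) (MonoidAlgebra R G),
    (∀ i j g, (M i j).coeff g ≠ 0 → (N i j).coeff g ≠ 0) ∧
    Nonempty (LinearMap.range A.vecMulLinear ≃ₗ[MonoidAlgebra R G]
      ((Fin n → MonoidAlgebra R G) ⧸ LinearMap.range M.vecMulLinear))

/-- Spectral gap: the spectrum of `N N*` is contained in `{0} ∪ [K⁻², ∞)`; that is, every `x` is within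
distance `K |xN|` of the kernel of `N` on `ℓ²`, formulated with finitely supported vectors. -/
def Gap {G : Type} [Group G] {m n : ℕ} (N : Matrix (Fin m) (Fin n) (MonoidAlgebra ℤ G)) (K : ℕ) :
    Prop :=
  ∀ (x : Fin m → MonoidAlgebra ℝ G) (ε : ℝ), 0 < ε → ∃ x' : Fin m → MonoidAlgebra ℝ G,
    normSq (x' ᵥ* toReal N) ≤ ε ∧ normSq (x - x') ≤ (K : ℝ) ^ 2 * normSq (x ᵥ* toReal N) + ε

/-- `NormLE N c`: right multiplication by `N` on `ℓ²` has norm at most `|c|`. -/
theorem result (R : Type) [CommRing R] [IsDomain R] (G : Type) [Group G] :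
    -- (1) the conjecture holds in the window
    (∀ (k m n : ℕ) (A : Matrix (Fin k) (Fin k) (MonoidAlgebra R G)), A * A = A →
      ∀ (N : Matrix (Fin m) (Fin n) (MonoidAlgebra ℤ G)) (L : ℕ),
        NormLE N (3 / Real.sqrt 2 + (1 / 2) ^ L) → PresentedBy A N →
        (2 * min m n + 30 ≤ L ∨ ∃ K : ℕ, Gap N K ∧ 16 * K + 31 ≤ L) → Bass A) ∧
    -- (2) presentations of linear size and norm exponentially close to `3 / √2`
    (∀ (k : ℕ) (A : Matrix (Fin k) (Fin k) (MonoidAlgebra R G)), A * A = A →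
      ∃ C : ℕ, ∀ L : ℕ, 1 ≤ L → ∃ (m : ℕ) (N : Matrix (Fin m) (Fin m) (MonoidAlgebra ℤ G)),
        m ≤ C * L ∧ NormLE N (3 / Real.sqrt 2 + (1 / 2) ^ L) ∧ PresentedBy A N) ∧
    -- (3) reduction of the conjecture
    ((∀ (k : ℕ) (A : Matrix (Fin k) (Fin k) (MonoidAlgebra R G)), A * A = A → Bass A) ↔
      ∀ C : ℕ, ∃ L : ℕ, 1 ≤ L ∧
        ∀ (k m n : ℕ) (A : Matrix (Fin k) (Fin k) (MonoidAlgebra R G)), A * A = A →
          ∀ N : Matrix (Fin m) (Fin n) (MonoidAlgebra ℤ G), m ≤ C * L → n ≤ C * L →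
            NormLE N (3 / Real.sqrt 2 + (1 / 2) ^ L) → PresentedBy A N → Bass A) := by
  have h1 : ∀ (k m n : ℕ) (A : Matrix (Fin k) (Fin k) (MonoidAlgebra R G)), A * A = A →
      ∀ (N : Matrix (Fin m) (Fin n) (MonoidAlgebra ℤ G)) (L : ℕ),
        NormLE N (3 / Real.sqrt 2 + (1 / 2) ^ L) → PresentedBy A N →
        (2 * min m n + 30 ≤ L ∨ ∃ K : ℕ, Gap N K ∧ 16 * K + 31 ≤ L) → Bass A := by
    rintro k m n A hA N L hN ⟨M, hs, ⟨φ⟩⟩ hw g hg
    refine Pool.Agent.Q175.LG.bass_win_module A hA M N ?_ hs φ g hg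
    rcases hw with hw | ⟨K, hK, hw⟩
    · exact Pool.Agent.Q175.LG.win_size N L hw hN
    · exact Pool.Agent.Q175.LG.win_gap N L K hw hK hN
  have h2 : ∀ (k : ℕ) (A : Matrix (Fin k) (Fin k) (MonoidAlgebra R G)), A * A = A →
      ∃ C : ℕ, ∀ L : ℕ, 1 ≤ L → ∃ (m : ℕ) (N : Matrix (Fin m) (Fin m) (MonoidAlgebra ℤ G)),
        m ≤ C * L ∧ NormLE N (3 / Real.sqrt 2 + (1 / 2) ^ L) ∧ PresentedBy A N := by
    intro k A hA
    obtain ⟨C, hC⟩ := Pool.Agent.Q175.LG.dil_coker (MonoidHom.id G) (1 - A)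
    obtain ⟨e⟩ := Pool.Agent.Q175.LG.range_coker A hA
    refine ⟨k + C, fun L hL => ?_⟩
    obtain ⟨l, M, N, hl, ⟨e'⟩, hM, hN⟩ := hC L hL
    refine ⟨k + l, N, ?_, hN, M, fun i j g hg => hM i j g hg, ⟨e.trans e'⟩⟩
    have : k ≤ k * L := Nat.le_mul_of_pos_right _ hL
    nlinarith
  refine ⟨h1, h2, fun h C => ⟨1, le_rfl, fun k m n A hA N _ _ _ _ => h k A hA⟩, fun h k A hA => ?_⟩
  obtain ⟨C, hC⟩ := h2 k A hA
  obtain ⟨L, hL, hL2⟩ := h C
  obtain ⟨m, N, hm, hN, hP⟩ := hC L hL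
  exact hL2 k m m A hA N hm hm hN hP

end Pool.Agent.Results.MP_7903c7_al.BassWindow
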