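import Pool.Agent.Q182.Cc.Main

/-!
# The Bass trace conjecture for groups acting on CAT(0) cube complexes

The one-skeletons of CAT(0) cube complexes are the median graphs (Chepoi, Roller). We consider a
group `G` acting by automorphisms on a median graph, which may have infinite degree and infinite
dimension. The conjecture holds over the domain `R` for a group if no element of infinite order in
a finitely generated subgroup starts a chain of roots of a certain type, which depends on the primes
which are not units in `R` (Bass, Linnell). We show that this property passes from the vertex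
stabilizers to `G` if the sizes of the finite orbits of the powers of each element of infinite order
involve only primes which are units in `R`, up to a bounded factor. The condition is empty if the
vertex stabilizers are torsion groups, and in characteristic zero it holds whenever the vertex
stabilizers of adjacent vertices are commensurable with bounded indices.

Outline of the proof. Let `b i` be a chain whose first element `g` has infinite order, and let `v` be
a vertex. If `g` is the `M`-th power of some `h` and fewer than `M` hyperplanes separate `v` and
`g v`, then some set of halfspaces which differs from the set of the halfspaces containing `v` only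
by finitely many elements is invariant under `g`, and a power of `g` fixes a vertex `u` (a vertex
for which the difference to the invariant set is minimal has a finite orbit). As `g` is a high power
of the `b i`, this applies, and a power of each `b i` fixes `u`. By the condition
`b i ^ (L * K ^ d i)` fixes `u`. Let `e (i + 1)` be the greatest common divisor of `K ^ d (i + 1)` and
`N i * e i`. The powers `b i ^ (L * e i)` are in the stabilizer of `u`, and they form a chain of the
same type for the modulus `m * K`. For bounded indices the condition is checked in this way: if `p`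
is odd, `p > B` and `p` divides the size of a finite orbit of `g`, then `h = g ^ c` has an orbit of
size `p`, the majority of its `p` vertices is a vertex fixed by `h` (majority of the halfspaces),
and along a path to this vertex the period of `h` changes only by factors which are at most `B`.
-/

set_option autoImplicit false

namespace Pool.Agent.Results.MP_7903c7_al.CubeComplexes

universe u v w

/-- The Bass trace conjecture for the ring `R` and the group `G`. -/
def BassFor (R : Type u) [CommRing R] (G : Type v) [Group G] : Prop :=
  ∀ (k : ℕ) (A : Matrix (Fin k) (Fin k) (MonoidAlgebra R G)), A * A = A →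
    ∀ g : G, ¬ IsUnit ((orderOf g : ℕ) : R) →
      ∑ i : Fin k, ∑ᶠ (h : G) (_ : IsConj h g), (A i i).coeff h = 0

/-- An `R`-chain of modulus `m`: each `b i` is the `N i`-th power of `b (i + 1)`, and `p` divides
all `N i` with `i ≥ p`, for each prime `p` which is not a unit in `R`, and in characteristic zero
also for each prime `p` which does not divide `m`. -/
def Chain (R : Type u) [CommRing R] (m : ℕ) {G : Type v} [Group G] (b : ℕ → G) : Prop :=
  ∃ N : ℕ → ℕ, (∀ i, b (i + 1) ^ N i = b i) ∧
    ∀ p : ℕ, p.Prime → (¬ IsUnit (p : R) ∨ (CharZero R ∧ ¬ p ∣ m)) → ∀ i, p ≤ i → p ∣ N i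

/-- The first element of each `R`-chain in `G` has finite order. (If `R` is a field of
characteristic `p`: no subgroup of `G` is isomorphic to `ℤ[1/p]`. If `R` is a field of
characteristic zero: no subgroup of `G` is isomorphic to the group of all fractions with
denominators prime to `m`, for any `m ≥ 1`.) -/
def ChainFree (R : Type u) [CommRing R] (G : Type v) [Group G] : Prop :=
  ∀ m : ℕ, 0 < m → ∀ b : ℕ → G, Chain R m b → ∃ s : ℕ, 0 < s ∧ b 0 ^ s = 1

/-- A median graph: a connected graph in which any three vertices have a unique median, a vertex
on shortest paths between any two of the three. These are the one-skeletons of the CAT(0) cube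
complexes. -/
def MedianGraph {V : Type} (X : SimpleGraph V) : Prop :=
  X.Connected ∧ ∀ x y z : V, ∃! m : V, X.dist x m + X.dist m y = X.dist x y ∧
    X.dist y m + X.dist m z = X.dist y z ∧ X.dist x m + X.dist m z = X.dist x z

/-- `G` acts by automorphisms of the graph `X`. -/
def Acts (G : Type) [Group G] {V : Type} [MulAction G V] (X : SimpleGraph V) : Prop :=
  ∀ (g : G) (v w : V), X.Adj v w → X.Adj (g • v) (g • w)

/-- For each vertex `v` there are a number `K`, a unit in `R`, and `L > 0` such that for each element
`g` of infinite order which has a positive power fixing `v` some `g ^ (L * K ^ d)` fixes `v`. (The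
size of each finite orbit of such a `g` containing `v` divides `L * K ^ d`.) -/
def Tame (R : Type u) [CommRing R] (G : Type) [Group G] (V : Type) [MulAction G V] : Prop :=
  ∀ v : V, ∃ K L : ℕ, IsUnit (K : R) ∧ 0 < L ∧ ∀ g : G, (∀ s : ℕ, 0 < s → g ^ s ≠ 1) →
    (∃ s : ℕ, 0 < s ∧ g ^ s • v = v) → ∃ d : ℕ, g ^ (L * K ^ d) • v = v

/-- All finitely generated subgroups of `G'` embed in `G`. -/
def LocEmb (G' G : Type) [Group G'] [Group G] : Prop :=
  ∀ H : Subgroup G', H.FG → ∃ f : H →* G, Function.Injective f

/-- Let `G` act by automorphisms on a median graph `X` (the one-skeleton of a CAT(0) cube complex of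
arbitrary dimension and cardinality). Let `R` be a commutative domain.

1. Let `R → R'` be a ring homomorphism to a commutative domain. If the vertex stabilizers are
`ChainFree R'` and the action is tame over `R'`, then `G` is `ChainFree R'`, and the Bass trace
conjecture holds for `R` and all groups which are locally embeddable in `G`.

2. If all vertex stabilizers are torsion groups, then `G` is `ChainFree R`, and the Bass trace
conjecture holds for `R` and all groups which are locally embeddable in `G`.

3. Let the indices of `G_v ∩ G_w` in `G_v` be finite and at most `B` for adjacent `v` and `w`. Let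
`R → R'` be as in 1, let `2 * B!` be a unit in `R'`, and let one vertex stabilizer be `ChainFree R'`.
Then `G` is `ChainFree R'`, and the Bass trace conjecture holds for `R` and all groups which are
locally embeddable in `G`.

4. The same for `R' = ℚ` and every `R` of characteristic zero. -/
theorem result (R : Type u) [CommRing R] [IsDomain R] (G V : Type) [Group G] [MulAction G V]
    (X : SimpleGraph V) (hX : MedianGraph X) (hG : Acts G X) :
    (∀ (R' : Type w) [CommRing R'] [IsDomain R'] (_ : R →+* R'),
      (∀ v : V, ChainFree R' (MulAction.stabilizer G v)) → Tame R' G V →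
        ChainFree R' G ∧ ∀ (G' : Type) [Group G'], LocEmb G' G → BassFor R G') ∧
    ((∀ (v : V) (g : G), g • v = v → ∃ s : ℕ, 0 < s ∧ g ^ s = 1) →
        ChainFree R G ∧ ∀ (G' : Type) [Group G'], LocEmb G' G → BassFor R G') ∧
    (∀ B : ℕ, (∀ v w : V, X.Adj v w →
        (MulAction.stabilizer G w).relIndex (MulAction.stabilizer G v) ≠ 0 ∧
        (MulAction.stabilizer G w).relIndex (MulAction.stabilizer G v) ≤ B) → ∀ v₀ : V,
      (∀ (R' : Type w) [CommRing R'] [IsDomain R'] (_ : R →+* R'),
        IsUnit ((2 * B.factorial : ℕ) : R') → ChainFree R' (MulAction.stabilizer G v₀) →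
          ChainFree R' G ∧ ∀ (G' : Type) [Group G'], LocEmb G' G → BassFor R G') ∧
      (CharZero R → ChainFree ℚ (MulAction.stabilizer G v₀) →
          ChainFree ℚ G ∧ ∀ (G' : Type) [Group G'], LocEmb G' G → BassFor R G')) := by
  let _ : MulAction G (Set V) := Set.mulActionSet
  have hX' : Q182.Cc.Median X := hX
  have hA := hX'.sys hG
  have hne : Nonempty V := hX.1.nonempty
  have hloc : ∀ (R' : Type w) [CommRing R'] [IsDomain R'] (_ : R →+* R'), Q182.Bt.P R' G →
      ∀ (G' : Type) [Group G'], LocEmb G' G → BassFor R G' := by
    intro R' _ _ φ hP G' _ hG'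
    refine Q182.Bt.bass_of_local_p fun H hH => ?_
    obtain ⟨f, hf⟩ := hG' H hH
    exact Q182.Bt.P.mono φ (Q182.Bt.P.sub f hf hP)
  refine ⟨?_, ?_, ?_⟩
  · intro R' _ _ φ hst ht
    have hP : Q182.Bt.P R' G := Q182.Cc.P.sys hA hst ht
    exact ⟨hP, hloc R' φ hP⟩
  · intro hst
    have hP : Q182.Bt.P R G := Q182.Cc.P.torsion hA hst
    refine ⟨hP, fun G' _ hG' => ?_⟩
    refine Q182.Bt.bass_of_local_p fun H hH => ?_
    obtain ⟨f, hf⟩ := hG' H hH
    exact Q182.Bt.P.sub f hf hP
  · intro B hidx v₀
    refine ⟨?_, ?_⟩
    · intro R' _ _ φ hB h0
      have hP : Q182.Bt.P R' G := Q182.Cc.P.idx hA hX.1 hB hidx v₀ h0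
      exact ⟨hP, hloc R' φ hP⟩
    · intro hR h0
      have hP : Q182.Bt.P ℚ G := by
        refine Q182.Cc.P.idx hA hX.1 ?_ hidx v₀ h0
        exact isUnit_iff_ne_zero.2 (Nat.cast_ne_zero.2 (Nat.mul_pos two_pos
          (Nat.factorial_pos B)).ne')
      refine ⟨hP, fun G' _ hG' => ?_⟩
      refine Q182.Bt.bass_of_local_p fun H hH => ?_
      obtain ⟨f, hf⟩ := hG' H hH
      have h1 : Q182.Bt.P ℚ H := Q182.Bt.P.sub f hf hP
      intro m hm b ⟨N, h2, h3⟩
      refine h1 m hm b ⟨N, h2, fun p hp hr => h3 p hp ?_⟩
      rcases hr with h4 | ⟨_, h4⟩
      · exact absurd (isUnit_iff_ne_zero.2 (Nat.cast_ne_zero.2 hp.ne_zero)) h4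
      · exact Or.inr ⟨hR, h4⟩

end Pool.Agent.Results.MP_7903c7_al.CubeComplexes
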