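import Pool.Agent.Q27.SMF.Main

/-!
# Semilinear actions over locally finite division algebras: the finitary linear elements

`C` is any class of groups with the closure properties `ClosedE C`, all of which are known for the
class of the groups that satisfy the K-theoretic Farrell–Jones conjecture with coefficients and finite
wreath products; the groups in this class satisfy the Bass trace conjecture of the question. `D` is
any class with `ClosedOver C D`; `D = C` is possible. The groups `GL_m(F)` are in this class for
`F = ℚ` and `F = 𝔽_p(t)` and their algebraic extensions (Rueping).

Outline of the proof. Let `e` run through finitely many elements of `N`. As in the linear case there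
is a finite dimensional space `W` which contains the images of all `e - 1` and `g e g⁻¹ - 1` and has
two bases, `b` and `b'`, so that the semilinear map which sends `b` to `b'` conjugates `e` to
`g e g⁻¹`. The entries of the matrices of the `e` in the basis `b` are in a finite dimensional
subalgebra `L₀` of `K`, and there is a finite dimensional `L` which contains `L₀`, its image under
the automorphism `α` which belongs to `g`, and the entries of the transition matrix. In general
no finite dimensional subalgebra is invariant under `α`. But `L` is free of the same finite rank over
`L₀` and over `α(L₀)`, so some `F`-linear bijection `θ` of `L` satisfies `θ(xy) = α(x) θ(y)` for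
`x ∈ L₀`. Thus conjugation by `g` on the `e` is realized by an inner automorphism of the group of
the `F`-linear automorphisms of `Lⁿ`.
-/

set_option autoImplicit false

namespace Pool.Agent.Results.MP_7903c7_al.SemilinearFinitary

open Matrix
open Pool.Agent.Y110.FJ (ClosedE)
open Q30.FJ (ClosedOver)

/-- Let `C` be a class of groups with the closure properties `ClosedE C`, and let the class `D` be
closed under subgroups and satisfy the extension principle over `C` (`D = C` is possible). Let `F` be
a field with all groups `GL_m(F)` in `C`, and let `K` be a division algebra over `F` in which each
finite subset is contained in a finite dimensional `F`-subalgebra (for example an algebraic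
extension field). Let `V` be a vector space over `K` of any dimension and let `G` be a group which
acts on the additive group of `V` so that each `g` in `G` is semilinear with respect to some
automorphism of the `F`-algebra `K`. Let `N` be a normal subgroup of `G` which acts faithfully and
`K`-linearly on `V`, so that `n - 1` has finite rank for all `n` in `N`. If `G ⧸ N` is in `D`,
then `G` is in `D`. -/
theorem result (C D : ∀ (G : Type) [Group G], Prop) (hC : ClosedE C) (hD : ClosedOver C D)
    (F K : Type) [Field F] [DivisionRing K] [Algebra F K] (hF : ∀ m : ℕ, C (GL (Fin m) F))
    (hloc : ∀ s : Set K, s.Finite → ∃ L : Subalgebra F K, s ⊆ (L : Set K) ∧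
      FiniteDimensional F L)
    (V G : Type) [AddCommGroup V] [Module K V] [Group G] [DistribMulAction G V]
    (hsemi : ∀ g : G, ∃ α : K ≃ₐ[F] K, ∀ (a : K) (v : V), g • (a • v) = α a • (g • v))
    (N : Subgroup G) [N.Normal] (hlin : ∀ n ∈ N, ∀ (a : K) (v : V), n • (a • v) = a • (n • v))
    (hfaith : ∀ n ∈ N, (∀ v : V, n • v = v) → n = 1)
    (hfin : ∀ n ∈ N, ∃ W : Submodule K V, W.FG ∧ ∀ v : V, n • v - v ∈ W)
    (hQ : D (G ⧸ N)) : D G :=
  Q27.SMF.main C D hC hD hF hloc hsemi N hlin hfaith hfin hQ

end Pool.Agent.Results.MP_7903c7_al.SemilinearFinitary
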