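import Pool.Agent.Q182.BtFin
import Pool.Agent.TH107.LB.AA

/-!
# The Bass trace conjecture for groups acting on trees

The conjecture holds over the domain `R` for a group if no element of infinite order in a finitely
generated subgroup starts a chain of roots of a certain type, which depends on the primes
which are not units in `R` (Bass, Linnell). We show that this property passes from the vertex
stabilizers to a group acting on a tree, under a condition on the rays of the tree which is empty
if no element of infinite order fixes a ray (for example for all free products with amalgamation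
and HNN extensions with finite edge groups and for all acylindrical actions), which holds for
isolated edge groups, and which holds in characteristic zero for edge groups of bounded index.

Outline of the proof. Let `b i` be a chain, `b (i + 1) ^ N i = b i`, whose first element has infinite
order. A hyperbolic element is not a high power, so all `b i` have fixed points. The fixed subtrees
decrease. If they have no common vertex then they all contain the tails of a common ray `ρ`, and
`b i ^ K ^ d i` fixes the whole ray, where `K` is the number in the condition on `ρ`. Let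
`e (i + 1)` be the greatest common divisor of `K ^ d (i + 1)` and `N i * e i`. The powers
`b i ^ e i` are in the stabilizer of the first vertex, and they form a chain of the same type for
the modulus `m * K`, because only primes dividing `K` are lost in the exponents.
-/

set_option autoImplicit false

namespace Pool.Agent.Results.MP_7903c7_al.TreeActions

universe u v w

/-- The Bass trace conjecture for the ring `R` and the group `G`. -/
def BassFor (R : Type u) [CommRing R] (G : Type v) [Group G] : Prop :=
  ∀ (k : ℕ) (A : Matrix (Fin k) (Fin k) (MonoidAlgebra R G)), A * A = A →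
    ∀ g : G, ¬ IsUnit ((orderOf g : ℕ) : R) →
      ∑ i : Fin k, ∑ᶠ (h : G) (_ : IsConj h g), (A i i).coeff h = 0

/-- An `R`-chain of modulus `m`: each `b i` is the `N i`-th power of `b (i + 1)`, and `p` divides
all `N i` with `i ≥ p`, for each prime `p` which is not a unit in `R`, and in characteristic zero
also for each prime `p` which does not divide `m`. -/
def Chain (R : Type u) [CommRing R] (m : ℕ) {G : Type v} [Group G] (b : ℕ → G) : Prop :=
  ∃ N : ℕ → ℕ, (∀ i, b (i + 1) ^ N i = b i) ∧
    ∀ p : ℕ, p.Prime → (¬ IsUnit (p : R) ∨ (CharZero R ∧ ¬ p ∣ m)) → ∀ i, p ≤ i → p ∣ N i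

/-- The first element of each `R`-chain in `G` has finite order. (If `R` is a field of
characteristic `p`: no subgroup of `G` is isomorphic to `ℤ[1/p]`. If `R` is a field of
characteristic zero: no subgroup of `G` is isomorphic to the group of all fractions with
denominators prime to `m`, for any `m ≥ 1`.) -/
def ChainFree (R : Type u) [CommRing R] (G : Type v) [Group G] : Prop :=
  ∀ m : ℕ, 0 < m → ∀ b : ℕ → G, Chain R m b → ∃ s : ℕ, 0 < s ∧ b 0 ^ s = 1

/-- The elements of each `R`-chain in `G` have bounded orders. -/
def ChainBounded (R : Type u) [CommRing R] (G : Type v) [Group G] : Prop :=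
  ∀ m : ℕ, 0 < m → ∀ b : ℕ → G, Chain R m b → ∃ s : ℕ, 0 < s ∧ ∀ i, b i ^ s = 1

/-- `Γ` has a subgroup of finite index which is residually a finite `p`-group. -/
def VRes (p : ℕ) (Γ : Type v) [Group Γ] : Prop :=
  ∃ N : Subgroup Γ, N.FiniteIndex ∧ ∀ g : N, g ≠ 1 →
    ∃ (F : Type v) (_ : Group F) (_ : Finite F) (f : N →* F), IsPGroup p F ∧ f g ≠ 1

/-- A ray in a tree. -/
def Ray {V : Type} (T : SimpleGraph V) (ρ : ℕ → V) : Prop :=
  (∀ n, T.Adj (ρ n) (ρ (n + 1))) ∧ ∀ n, ρ n ≠ ρ (n + 2)

/-- For each ray there is a number `K`, a unit in `R`, such that `g ^ K` fixes the `n`-th vertex of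
the ray for each element `g` of infinite order which fixes all later vertices of the ray and has
a positive power fixing the `n`-th vertex. This holds if no element of infinite order fixes a ray,
if all edge stabilizers are isolated in the stabilizers of their ends, or if their indices there are
at most `B` and `B!` is a unit in `R`. -/
def Tame (R : Type u) [CommRing R] (G : Type) [Group G] {V : Type} [MulAction G V]
    (T : SimpleGraph V) : Prop :=
  ∀ ρ : ℕ → V, Ray T ρ → ∃ K : ℕ, IsUnit (K : R) ∧
    ∀ (n : ℕ) (g : G), (∀ s : ℕ, 0 < s → g ^ s ≠ 1) → (∀ k, n < k → g • ρ k = ρ k) →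
      (∃ s : ℕ, 0 < s ∧ g ^ s • ρ n = ρ n) → g ^ K • ρ n = ρ n

/-- `G` acts without inversions on the tree `T`. -/
def TreeAction (G : Type) [Group G] {V : Type} [MulAction G V] (T : SimpleGraph V) : Prop :=
  T.IsTree ∧ (∀ (g : G) (v w : V), T.Adj v w → T.Adj (g • v) (g • w)) ∧
    ∀ (g : G) (v w : V), T.Adj v w → ¬ (g • v = w ∧ g • w = v)

theorem VRes.rp {p : ℕ} (hp : p.Prime) {Γ : Type v} [Group Γ] (h : VRes p Γ) :
    Pool.Agent.TH107.LB.RP p Γ := by
  classical
  obtain ⟨N, hN, hsep⟩ := h
  haveI := Fact.mk hp
  refine ⟨N.normalCore, inferInstance, inferInstance, fun g hg => ?_⟩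
  by_cases hgC : g ∈ N.normalCore
  swap
  · exact ⟨N.normalCore, inferInstance, inferInstance, ⟨0, fun h hh => by simpa using hh⟩, hgC⟩
  obtain ⟨F, _, _, f, hF, hfg⟩ := hsep ⟨g, N.normalCore_le hgC⟩ (by
    intro h
    exact hg (congrArg Subtype.val h))
  obtain ⟨e, he⟩ := (IsPGroup.iff_card).1 hF
  have hkf : f.ker.FiniteIndex := Subgroup.finiteIndex_ker f
  have h1 : (f.ker.map N.subtype).FiniteIndex := by
    refine ⟨?_⟩
    rw [Subgroup.index_map_subtype]
    exact Nat.mul_ne_zero hkf.index_ne_zero hN.index_ne_zero
  refine ⟨(f.ker.map N.subtype ⊓ N.normalCore).normalCore, inferInstance, inferInstance,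
    ⟨e, fun h hh b => ?_⟩, fun h => ?_⟩
  · have h2 : b * h * b⁻¹ ∈ N.normalCore := Subgroup.Normal.conj_mem inferInstance h hh b
    have h3 : b * h ^ p ^ e * b⁻¹ = (b * h * b⁻¹) ^ p ^ e := conj_pow.symm
    rw [h3]
    refine ⟨⟨⟨b * h * b⁻¹, N.normalCore_le h2⟩ ^ p ^ e, ?_, rfl⟩, N.normalCore.pow_mem h2 _⟩
    change f _ = 1
    rw [map_pow, ← he, pow_card_eq_one']
  · obtain ⟨⟨y, hy, hyg⟩, _⟩ := Subgroup.normalCore_le _ h
    apply hfg
    have h2 : y = ⟨g, N.normalCore_le hgC⟩ := Subtype.ext hyg
    rw [← h2]
    exact hy

/-- Let `R` be a commutative domain and let `R → R'` be a ring homomorphism to a commutative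
domain (for example the fraction field, or a residue field), and let `G` act without inversions on
a tree.

1. If the vertex stabilizers are `ChainFree R'` and the action is tame over `R'`, then `G` is
`ChainFree R'`, and the Bass trace conjecture holds for `R` and all groups which are locally
embeddable in `G` (all finitely generated subgroups embed in `G`).

2. If moreover the vertex stabilizers are `ChainBounded R'` and the elements of finite order which
fix rays have bounded orders, then `G` is `ChainBounded R'`.

3. If `R` has characteristic zero, the indices of the edge stabilizers in the vertex stabilizers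
are finite and bounded, and one vertex stabilizer is `ChainFree ℚ`, then `G` is `ChainFree ℚ`, and
the Bass trace conjecture holds for `R` and `G`.

4. The class of the groups which are `ChainFree R'` contains all groups which are `ChainBounded R'`,
is closed under subgroups, finite index overgroups, and extensions with `ChainBounded R'` quotient,
and it contains each group whose elements of infinite order are detected by homomorphisms to such
groups. A group is `ChainBounded R'` if it is virtually residually `p` for one prime which is not a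
unit in `R'`, or, in characteristic zero, for infinitely many primes; in particular finitely
generated linear groups over fields of characteristic zero are `ChainBounded ℚ`. -/
theorem result (R : Type u) [CommRing R] [IsDomain R] (R' : Type w) [CommRing R'] [IsDomain R']
    (φ : R →+* R') :
    (∀ (G V : Type) [Group G] [MulAction G V] (T : SimpleGraph V), TreeAction G T →
      (∀ v : V, ChainFree R' (MulAction.stabilizer G v)) → Tame R' G T →
        ChainFree R' G ∧
        ∀ (G' : Type) [Group G'], (∀ H : Subgroup G', H.FG →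
          ∃ f : H →* G, Function.Injective f) → BassFor R G') ∧
    (∀ (G V : Type) [Group G] [MulAction G V] (T : SimpleGraph V), TreeAction G T →
      (∀ v : V, ChainBounded R' (MulAction.stabilizer G v)) → Tame R' G T →
      (∃ s : ℕ, 0 < s ∧ ∀ ρ : ℕ → V, Ray T ρ → ∀ g : G, (∀ k, g • ρ k = ρ k) →
        (∃ t : ℕ, 0 < t ∧ g ^ t = 1) → g ^ s = 1) → ChainBounded R' G) ∧
    (CharZero R → ∀ (G V : Type) [Group G] [MulAction G V] (T : SimpleGraph V), TreeAction G T →
      ∀ B : ℕ, (∀ v w : V, T.Adj v w →
        (MulAction.stabilizer G w).relIndex (MulAction.stabilizer G v) ≠ 0 ∧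
        (MulAction.stabilizer G w).relIndex (MulAction.stabilizer G v) ≤ B) →
      ∀ v₀ : V, ChainFree ℚ (MulAction.stabilizer G v₀) → ChainFree ℚ G ∧ BassFor R G) ∧
    (∀ (G : Type) [Group G],
      (ChainBounded R' G → ChainFree R' G) ∧
      (∀ H : Subgroup G, ChainFree R' G → ChainFree R' H) ∧
      (∀ H : Subgroup G, H.FiniteIndex → ChainFree R' H → ChainFree R' G) ∧
      (∀ (Q : Type) [Group Q] (f : G →* Q), ChainBounded R' Q → ChainFree R' f.ker →
        ChainFree R' G) ∧
      ((∀ g : G, (∀ s : ℕ, 0 < s → g ^ s ≠ 1) → ∃ (Q : Type) (_ : Group Q) (f : G →* Q),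
        ChainFree R' Q ∧ ∀ s : ℕ, 0 < s → f g ^ s ≠ 1) → ChainFree R' G) ∧
      (((∃ p : ℕ, p.Prime ∧ ¬ IsUnit (p : R') ∧ VRes p G) ∨
        (CharZero R' ∧ ∀ m : ℕ, ∃ p : ℕ, m < p ∧ p.Prime ∧ VRes p G)) → ChainBounded R' G) ∧
      (∀ (K : Type) [Field K] [CharZero K] (n : ℕ) (f : G →* GL (Fin n) K),
        Function.Injective f → Group.FG G → ChainBounded ℚ G)) := by
  refine ⟨?_, ?_, ?_, ?_⟩
  · intro G V _ _ T hT hst hray
    have hP : Q182.Bt.P R' G := Q182.Bt.P.tree ⟨hT.1, hT.2.1, hT.2.2⟩ hst hray
    refine ⟨hP, fun G' _ hG' => ?_⟩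
    refine Q182.Bt.bass_of_local_p fun H hH => ?_
    obtain ⟨f, hf⟩ := hG' H hH
    exact Q182.Bt.P.mono φ (Q182.Bt.P.sub f hf hP)
  · intro G V _ _ T hT hst hray htor
    exact Q182.Bt.W.tree ⟨hT.1, hT.2.1, hT.2.2⟩ hst hray htor
  · intro hR G V _ _ T hT B hidx v₀ h0
    have hP : Q182.Bt.P ℚ G := by
      refine Q182.Bt.P.tree ⟨hT.1, hT.2.1, hT.2.2⟩ (fun v => ?_)
        (Q182.Bt.tame_of_index B ?_ hidx)
      · exact Q182.Bt.P.commens hT.1 (fun v w h => (hidx v w h).1) v₀ h0 v
      · exact isUnit_iff_ne_zero.2 (Nat.cast_ne_zero.2 (Nat.factorial_ne_zero B))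
    refine ⟨hP, ?_⟩
    refine Q182.Bt.bass_of_local_p fun H hH => ?_
    have h1 : Q182.Bt.P ℚ H := Q182.Bt.P.sub H.subtype H.subtype_injective hP
    intro m hm b ⟨N, h2, h3⟩
    refine h1 m hm b ⟨N, h2, fun p hp hr => h3 p hp ?_⟩
    rcases hr with h4 | ⟨_, h4⟩
    · exact absurd (isUnit_iff_ne_zero.2 (Nat.cast_ne_zero.2 hp.ne_zero)) h4
    · exact Or.inr ⟨hR, h4⟩
  · intro G _
    refine ⟨Q182.Bt.P.of_W, ?_, ?_, ?_, ?_, ?_, ?_⟩
    · intro H h
      exact Q182.Bt.P.sub H.subtype H.subtype_injective h
    · intro H hH h
      exact Q182.Bt.P.fi H hH h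
    · intro Q _ f hQ hK
      exact Q182.Bt.P.ext f hQ hK
    · intro h
      exact Q182.Bt.P.detect h
    · intro h
      exact Pool.Agent.TH107.LB.W.of_RP
        (Pool.Agent.TH107.LB.Enough.mono (R := R') h fun p hp h => h.rp hp)
    · intro K _ _ n f hf hG
      have h1 : (f.range).FG := by
        have := (Group.fg_iff_subgroup_fg f.range).1 (Group.fg_of_surjective
          (f := f.rangeRestrict) f.rangeRestrict_surjective)
        exact this
      obtain ⟨E, hE⟩ := Pool.Agent.TH107.LB.RP.linear f.range h1
      have h2 : Pool.Agent.TH107.LB.W ℚ f.range :=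
        Pool.Agent.TH107.LB.W.of_RP (Pool.Agent.TH107.LB.Enough.of_finset E hE)
      apply h2.sub f.rangeRestrict
      intro x y hxy
      exact hf (congrArg Subtype.val hxy)

end Pool.Agent.Results.MP_7903c7_al.TreeActions
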